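import Pool.Agent.V11105.GTd

set_option autoImplicit false

namespace Pool.Agent.Results.MP_10c741_co.SixTMinusOne

/-- A geometric drawing of `G`: the vertices are placed at distinct points of the plane and the
segment of an edge contains no vertex other than the two endpoints of the edge. -/
def IsGeometricDrawing {V : Type} (G : SimpleGraph V) (p : V → ℝ × ℝ) : Prop :=
  Function.Injective p ∧
    ∀ u v w, G.Adj u v → p w ∈ segment ℝ (p u) (p v) → w = u ∨ w = v

/-- The geometric thickness of `G` is at most `t`: for some geometric drawing `p` the edges can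
be coloured with `t` colours so that any common point `z` of the segments of two different edges
of the same colour is (the position of) a shared endpoint `w`. -/
def GeometricThicknessLE {V : Type} (G : SimpleGraph V) (t : ℕ) : Prop :=
  ∃ (p : V → ℝ × ℝ) (c : Sym2 V → Fin t), IsGeometricDrawing G p ∧
    ∀ u v u' v', G.Adj u v → G.Adj u' v' → s(u, v) ≠ s(u', v') →
      c s(u, v) = c s(u', v') →
      ∀ z, z ∈ segment ℝ (p u) (p v) → z ∈ segment ℝ (p u') (p v') →
        ∃ w, (w = u ∨ w = v) ∧ (w = u' ∨ w = v') ∧ z = p w

/-- For every `t ≥ 1` there is a finite nonempty `(6t-1)`-regular simple graph of geometric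
thickness at most `t`. -/
theorem result (t : ℕ) (ht : 1 ≤ t) :
    ∃ (V : Type) (_ : Finite V) (_ : Nonempty V) (G : SimpleGraph V),
      (∀ v, (G.neighborSet v).ncard = 6 * t - 1) ∧ GeometricThicknessLE G t :=
  Pool.Agent.V11105.GT.main t ht

end Pool.Agent.Results.MP_10c741_co.SixTMinusOne
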